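import Pool.Graph.R_seed8.H93R3.GamA

set_option autoImplicit false

namespace Pool.Agent.KS6_90.GI
open Complex Metric Set

/-- the product of two points of the disc of radius 1 about 1 is not a negative number -/
lemma slit {a b : ℂ} (ha : ‖a‖ < 1) (hb : ‖b‖ < 1) : (1 - a) * (1 - b) ∈ slitPlane := by
  have h : ∀ c : ℂ, ‖c‖ < 1 → 0 < (1 - c).re := fun c hc => by
    have := (le_abs_self _).trans (abs_re_le_norm c)
    rw [sub_re, one_re]; linarith
  have h0 : ∀ c : ℂ, ‖c‖ < 1 → (1 - c) ≠ 0 := fun c hc e => by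
    have := h c hc; rw [e] at this; simp at this
  have ea := abs_lt.mp (abs_arg_lt_pi_div_two_iff.mpr (Or.inl (h a ha)))
  have eb := abs_lt.mp (abs_arg_lt_pi_div_two_iff.mpr (Or.inl (h b hb)))
  rw [mem_slitPlane_iff_arg, arg_mul (h0 a ha) (h0 b hb) ⟨by linarith, by linarith⟩]
  exact ⟨by linarith, mul_ne_zero (h0 a ha) (h0 b hb)⟩

lemma ds {D : ℂ → ℂ} {R : ℝ} (hR : 1 < R) (hD : DifferentiableOn ℂ D (ball 0 R)) {u : ℂ}
    (hu : ‖u‖ < 1) (h0 : D u = 0) : ∃ E : ℂ → ℂ, DifferentiableOn ℂ E (ball 0 R) ∧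
      ∀ x, D x = (x - u) * E x := by
  refine ⟨dslope D u, ?_, fun x => ?_⟩
  · refine (Complex.differentiableOn_dslope (isOpen_ball.mem_nhds ?_)).mpr hD
    rw [mem_ball_zero_iff]; linarith
  · have := sub_smul_dslope D u x
    rw [smul_eq_mul, h0, sub_zero] at this
    exact this.symm

/-- **The obstruction.** A function into the symmetrised bidisc cannot have the eigenvalue `t λ`,
`t > 1`, at three points `λ` of the disc. -/
theorem core3 {t : ℝ} (ht : 1 < t) {s p : ℂ → ℂ} {R : ℝ} (hR : 1 < R)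
    (hs : DifferentiableOn ℂ s (ball 0 R)) (hp : DifferentiableOn ℂ p (ball 0 R))
    (hG : ∀ z ∈ ball (0 : ℂ) R, ∃ a b : ℂ, ‖a‖ ≤ 1 ∧ ‖b‖ ≤ 1 ∧ s z = a + b ∧ p z = a * b)
    {u v w : ℂ} (hu : ‖u‖ < 1) (hv : ‖v‖ < 1) (hw : ‖w‖ < 1) (huv : u ≠ v) (huw : u ≠ w)
    (hvw : v ≠ w) (h1 : (t * u) ^ 2 - s u * (t * u) + p u = 0)
    (h2 : (t * v) ^ 2 - s v * (t * v) + p v = 0)
    (h3 : (t * w) ^ 2 - s w * (t * w) + p w = 0) : False := by
  obtain ⟨D, hD⟩ : ∃ D : ℂ → ℂ, D = fun x => (t * x) ^ 2 - s x * (t * x) + p x := ⟨_, rfl⟩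
  have hDd : DifferentiableOn ℂ D (ball 0 R) := by
    rw [hD]
    have e : DifferentiableOn ℂ (fun x : ℂ => (t : ℂ) * x) (ball 0 R) :=
      (differentiable_id.const_mul (t : ℂ)).differentiableOn
    exact ((e.pow 2).sub (hs.mul e)).add hp
  obtain ⟨E1, d1, e1⟩ := ds hR hDd hu (by rw [hD]; exact h1)
  obtain ⟨E2, d2, e2⟩ := ds hR d1 hv (by
    have := e1 v
    rw [hD] at this
    simp only [h2] at this
    exact (mul_eq_zero.mp this.symm).resolve_left (sub_ne_zero.mpr huv.symm))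
  obtain ⟨E, d3, e3⟩ := ds hR d2 hw (by
    have := e1 w
    rw [hD, e2 w] at this
    simp only [h3] at this
    exact ((mul_eq_zero.mp this.symm).resolve_left (sub_ne_zero.mpr huw.symm) |>
      mul_eq_zero.mp).resolve_left (sub_ne_zero.mpr hvw.symm))
  have t0 : (t : ℂ) ≠ 0 := by exact_mod_cast (by linarith : t ≠ 0)
  have sub : sphere (0 : ℂ) 1 ⊆ ball 0 R := fun x hx => by
    rw [mem_sphere_zero_iff_norm] at hx
    rw [mem_ball_zero_iff]; linarith
  have sub2 : closedBall (0 : ℂ) 1 ⊆ ball 0 R := closedBall_subset_ball hR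
  have x0 : ∀ x ∈ sphere (0 : ℂ) 1, x ≠ 0 := fun x hx h => by
    rw [h] at hx; simp at hx
  -- the quotient
  obtain ⟨q, hq⟩ : ∃ q : ℂ → ℂ, q = fun x => 1 - s x / (t * x) + p x / (t * x) ^ 2 := ⟨_, rfl⟩
  have q1 : ∀ x ∈ sphere (0 : ℂ) 1, q x ∈ slitPlane := fun x hx => by
    obtain ⟨a, b, ha, hb, hab, hab'⟩ := hG x (sub hx)
    have hx1 := mem_sphere_zero_iff_norm.mp hx
    have hn : ‖(t : ℂ) * x‖ = t := by
      rw [norm_mul, hx1, mul_one, Complex.norm_real, Real.norm_of_nonneg (by linarith)]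
    have hne := x0 x hx
    have : q x = (1 - a / (t * x)) * (1 - b / (t * x)) := by
      rw [hq]
      simp only [hab, hab']
      field_simp
      ring
    rw [this]
    refine slit ?_ ?_ <;>
    · rw [norm_div, hn, div_lt_one (by linarith)]; linarith
  have hsc : ContinuousOn s (sphere 0 1) := hs.continuousOn.mono sub
  have hpc : ContinuousOn p (sphere 0 1) := hp.continuousOn.mono sub
  have c1 : ContinuousOn (fun x : ℂ => (t : ℂ) * x) (sphere 0 1) :=
    (continuous_const.mul continuous_id).continuousOn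
  have qc : ContinuousOn q (sphere 0 1) := by
    rw [hq]
    refine (continuousOn_const.sub (hsc.div c1 fun x hx => mul_ne_zero t0 (x0 x hx))).add
      (hpc.div (c1.pow 2) fun x hx => pow_ne_zero 2 (mul_ne_zero t0 (x0 x hx)))
  have k1 : ∀ y : ℂ, ‖y‖ < 1 → ∀ x ∈ sphere (0 : ℂ) 1, 1 - y / x ∈ slitPlane := fun y hy x hx => by
    refine Or.inl ?_
    have hx1 := mem_sphere_zero_iff_norm.mp hx
    have : ‖y / x‖ < 1 := by rw [norm_div, hx1, div_one]; exact hy
    have := ((le_abs_self _).trans (abs_re_le_norm (y / x))).trans_lt this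
    rw [sub_re, one_re]; linarith
  have k2 : ∀ y : ℂ, ‖y‖ < 1 → ContinuousOn (fun x : ℂ => log (1 - y / x)) (sphere 0 1) :=
    fun y hy => (continuousOn_const.sub (continuousOn_const.div continuousOn_id x0)).clog
      (k1 y hy)
  obtain ⟨M, hM⟩ : ∃ M : ℂ → ℂ, M = fun x => log (q x) - log (1 - u / x) - log (1 - v / x) -
      log (1 - w / x) := ⟨_, rfl⟩
  have Mc : ContinuousOn M (sphere 0 1) := by
    rw [hM]
    exact (((qc.clog q1).sub (k2 u hu)).sub (k2 v hv)).sub (k2 w hw)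
  have Mexp : ∀ x ∈ sphere (0 : ℂ) 1, x * E x = t ^ 2 * exp (M x) := fun x hx => by
    have hne := x0 x hx
    rw [hM]
    simp only [exp_sub]
    rw [exp_log (slitPlane_ne_zero (q1 x hx)), exp_log (slitPlane_ne_zero (k1 u hu x hx)),
      exp_log (slitPlane_ne_zero (k1 v hv x hx)), exp_log (slitPlane_ne_zero (k1 w hw x hx))]
    have f1 : ∀ y : ℂ, ‖y‖ < 1 → x - y ≠ 0 := fun y hy h => by
      have := sub_eq_zero.mp h
      rw [← this, mem_sphere_zero_iff_norm.mp hx] at hy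
      exact lt_irrefl _ hy
    have f2 := e1 x
    rw [e2 x, e3 x, hD] at f2
    have f3 : t ^ 2 * x ^ 2 * q x = (x - u) * ((x - v) * ((x - w) * E x)) := by
      rw [← f2, hq]
      field_simp
    have g1 := f1 u hu
    have g2 := f1 v hv
    have g3 := f1 w hw
    have r : ∀ y : ℂ, 1 - y / x = (x - y) / x := fun y => by field_simp
    rw [r, r, r]
    field_simp
    linear_combination -f3
  obtain ⟨K, dK, hK⟩ := Pool.Agent.H93R3.Gam.exists_entire (fun x => (M x).im)
    (continuous_im.comp_continuousOn Mc) 1 one_pos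
  obtain ⟨V, hV⟩ : ∃ V : ℂ → ℂ, V = fun x => x * E x * exp (-(I * K x)) := ⟨_, rfl⟩
  have dV : DifferentiableOn ℂ V (ball 0 R) := by
    rw [hV]
    exact (differentiableOn_id.mul d3).mul (dK.const_mul I).neg.cexp.differentiableOn
  have V0 : V 0 = 0 := by rw [hV]; simp
  have Vre : ∀ x ∈ sphere (0 : ℂ) 1, 0 < (V x).re := fun x hx => by
    have e : V x = t ^ 2 * exp (M x - I * K x) := by
      rw [hV]
      simp only
      rw [Mexp x hx, sub_eq_add_neg (M x), exp_add, mul_assoc]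
    rw [e, ← ofReal_pow, re_ofReal_mul, exp_re]
    have h4 : (M x - I * K x).im = -((K x).re - (M x).im) := by
      simp
    rw [h4, Real.cos_neg]
    have h5 := abs_le.mp (hK x (mem_sphere_zero_iff_norm.mp hx))
    have h6 := Real.cos_pos_of_mem_Ioo (x := (K x).re - (M x).im)
      ⟨by linarith [Real.pi_gt_three], by linarith [Real.pi_gt_three]⟩
    have h7 := Real.exp_pos (M x - I * K x).re
    positivity
  obtain ⟨x1, hx1, hmin⟩ := (isCompact_sphere (0 : ℂ) 1).exists_isMinOn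
    ⟨1, by simp⟩ (continuous_re.comp_continuousOn (dV.continuousOn.mono sub))
  have hc := Vre x1 hx1
  have mp := Complex.norm_le_of_forall_mem_frontier_norm_le (U := ball (0 : ℂ) 1)
    (f := fun x => exp (-V x)) (C := Real.exp (-(V x1).re)) isBounded_ball
    ((dV.neg.cexp.mono sub2).diffContOnCl_ball subset_rfl) (fun z hz => by
      rw [frontier_ball _ one_ne_zero] at hz
      rw [norm_exp, neg_re]
      exact Real.exp_le_exp.mpr (neg_le_neg (hmin hz)))
    (z := 0) (subset_closure (mem_ball_self one_pos))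
  simp only [V0, neg_zero, exp_zero, norm_one] at mp
  have := Real.exp_lt_exp.mpr (neg_lt_zero.mpr hc)
  rw [Real.exp_zero] at this
  linarith

end Pool.Agent.KS6_90.GI
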