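import Pool.Agent.KS6_90.GI.Core
import Pool.Graph.R_seed8.Y958.GI.Stab

set_option autoImplicit false

namespace Pool.Agent.KS6_90.GI
open Complex Metric Set

lemma pow_sub_one {X : ℂ} (hX : ‖X‖ ≤ 1) (m : ℕ) : ‖X ^ m - 1‖ ≤ m * ‖X - 1‖ := by
  rw [← geom_sum_mul, norm_mul]
  refine mul_le_mul_of_nonneg_right ((norm_sum_le _ _).trans ?_) (norm_nonneg _)
  refine (Finset.sum_le_sum fun i _ => (norm_pow X i).le.trans
    (pow_le_one₀ (norm_nonneg _) hX)).trans ?_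
  simp

/-- `Re X - ε Re X ^ m ≤ 1 - ε / 2`, `ε = 1 / m²` -/
lemma gain {X : ℂ} (hX : ‖X‖ ≤ 1) {m : ℕ} {ε : ℝ} (hε0 : 0 ≤ ε) (hε : ε * m ^ 2 = 1) :
    X.re - ε * (X ^ m).re ≤ 1 - ε / 2 := by
  have h1 := pow_sub_one hX m
  have h2 : 1 - m * ‖X - 1‖ ≤ (X ^ m).re := by
    have := (abs_le.mp ((abs_re_le_norm (X ^ m - 1)).trans h1)).1
    rw [sub_re, one_re] at this; linarith
  have h3 : ‖X - 1‖ ^ 2 ≤ 2 * (1 - X.re) := by
    have e1 := Complex.sq_norm X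
    rw [Complex.sq_norm, normSq_apply]
    rw [normSq_apply] at e1
    have e2 : ‖X‖ ^ 2 ≤ 1 := by nlinarith [norm_nonneg X]
    simp only [sub_re, one_re, sub_im, one_im]
    nlinarith
  have h4 : ε * (1 - m * ‖X - 1‖) ≤ ε * (X ^ m).re := mul_le_mul_of_nonneg_left h2 hε0
  have h5 : ε ^ 2 * m ^ 2 = ε := by rw [sq, mul_assoc, hε, mul_one]
  nlinarith [sq_nonneg (‖X - 1‖ - ε * m)]

/-- For nodes in a disc of radius `R < 1` the data `λ_j ↦ - λ_j / (2 - λ_j υ(λ_j))` are solvable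
with sup norm at most a constant `ρ < 1` which is the same for all Schur functions `υ`. -/
theorem base (n : ℕ) {τ R : ℝ} (hτ : 0 < τ) (hτ1 : τ ≤ 1) (hR0 : 0 ≤ R) (hR : R < 1) :
    ∃ ρ : ℝ, 0 < ρ ∧ ρ < 1 ∧ ∀ lam : Fin n → ℂ, (∀ j, ‖lam j‖ ≤ R) →
      (∀ i j, i ≠ j → 2 * τ ≤ ‖lam j - lam i‖) → ∀ υ : ℂ → ℂ, DifferentiableOn ℂ υ (ball 0 1) →
      (∀ x ∈ ball (0 : ℂ) 1, ‖υ x‖ ≤ 1) →
      ∃ g : ℂ → ℂ, DifferentiableOn ℂ g (ball 0 1) ∧ (∀ x ∈ ball (0 : ℂ) 1, ‖g x‖ ≤ ρ) ∧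
        ∀ j, g (lam j) = -lam j / (2 - lam j * υ (lam j)) := by
  obtain ⟨m, hm⟩ : ∃ m : ℕ, n * (R ^ m * (1 / τ) ^ n) ≤ 1 / 4 ∧ 1 ≤ m := by
    have h1 : Filter.Tendsto (fun m : ℕ => n * (R ^ m * (1 / τ) ^ n)) Filter.atTop
        (nhds (n * (0 * (1 / τ) ^ n))) :=
      ((tendsto_pow_atTop_nhds_zero_of_lt_one hR0 hR).mul_const _).const_mul _
    rw [zero_mul, mul_zero] at h1
    exact ((h1.eventually (ge_mem_nhds (by norm_num : (0 : ℝ) < 1 / 4))).and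
      (Filter.eventually_ge_atTop 1)).exists
  obtain ⟨hm, hm1⟩ := hm
  have m0 : (0 : ℝ) < m := by exact_mod_cast hm1
  obtain ⟨ε, hε⟩ : ∃ ε : ℝ, ε = 1 / m ^ 2 := ⟨_, rfl⟩
  have ε0 : 0 < ε := by rw [hε]; positivity
  have εm : ε * m ^ 2 = 1 := by rw [hε]; field_simp
  refine ⟨1 / (1 + ε / 4), by positivity, by rw [div_lt_one (by positivity)]; linarith,
    fun lam hl hsep υ dυ hυ => ?_⟩
  have hl1 : ∀ j, lam j ∈ ball (0 : ℂ) 1 := fun j => by
    rw [mem_ball_zero_iff]; exact (hl j).trans_lt hR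
  obtain ⟨X, hX⟩ : ∃ X : ℂ → ℂ, X = fun x => x * υ x := ⟨_, rfl⟩
  have dX : DifferentiableOn ℂ X (ball 0 1) := by rw [hX]; exact differentiableOn_id.mul dυ
  have nX : ∀ x ∈ ball (0 : ℂ) 1, ‖X x‖ ≤ ‖x‖ := fun x hx => by
    rw [hX]
    simp only
    rw [norm_mul]
    exact mul_le_of_le_one_right (norm_nonneg _) (hυ x hx)
  obtain ⟨L, dL, L1, L2⟩ := Pool.Agent.Y958.GI.correct lam (fun j => X (lam j) ^ m)
    (E := R ^ m) hτ hτ1 (fun j => (hl j).trans_lt hR) hsep fun j => by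
      rw [norm_pow]
      exact pow_le_pow_left₀ (norm_nonneg _) ((nX _ (hl1 j)).trans (hl j)) m
  obtain ⟨Y, hY⟩ : ∃ Y : ℂ → ℂ, Y = fun x => X x - ε * (X x ^ m - L x) := ⟨_, rfl⟩
  have dY : DifferentiableOn ℂ Y (ball 0 1) := by
    rw [hY]
    exact dX.sub (((dX.pow m).sub dL.differentiableOn).const_mul _)
  have Yre : ∀ x ∈ ball (0 : ℂ) 1, 1 + ε / 4 ≤ (2 - Y x).re := fun x hx => by
    have h1 := gain ((nX x hx).trans (mem_ball_zero_iff.mp hx).le) ε0.le εm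
    have h2 := (abs_le.mp ((abs_re_le_norm (L x)).trans ((L2 x hx).trans hm))).2
    have h3 : (2 - Y x).re = 2 - ((X x).re - ε * (X x ^ m).re) - ε * (L x).re := by
      rw [hY]
      simp only [sub_re, re_ofNat, re_ofReal_mul]
      ring
    rw [h3]
    nlinarith
  have Yne : ∀ x ∈ ball (0 : ℂ) 1, 2 - Y x ≠ 0 := fun x hx h => by
    have := Yre x hx
    rw [h, zero_re] at this
    linarith
  refine ⟨fun x => -x / (2 - Y x), differentiableOn_id.neg.div (dY.const_sub 2) Yne,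
    fun x hx => ?_, fun j => ?_⟩
  · rw [norm_div, norm_neg]
    have h1 := (Yre x hx).trans ((le_abs_self _).trans (abs_re_le_norm _))
    have := (mem_ball_zero_iff.mp hx).le
    gcongr
  · have : Y (lam j) = lam j * υ (lam j) := by
      rw [hY]
      simp only [L1, sub_self, mul_zero, sub_zero]
      rw [hX]
    show -lam j / (2 - Y (lam j)) = _
    rw [this]

/-- the same for the perturbed data -/
theorem cond (n : ℕ) {τ R : ℝ} (hτ : 0 < τ) (hτ1 : τ ≤ 1) (hR0 : 0 ≤ R) (hR : R < 1) :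
    ∃ η : ℝ, 0 < η ∧ ∃ ρ : ℝ, ρ < 1 ∧ ∀ (lam : Fin n → ℂ) (s p : Fin n → ℂ),
      (∀ j, ‖lam j‖ ≤ R) → (∀ i j, i ≠ j → 2 * τ ≤ ‖lam j - lam i‖) →
      (∀ j, ‖s j - lam j‖ ≤ η) → (∀ j, ‖p j‖ ≤ η) → ∀ υ : ℂ → ℂ,
      DifferentiableOn ℂ υ (ball 0 1) → (∀ x ∈ ball (0 : ℂ) 1, ‖υ x‖ ≤ 1) →
      ∃ g : ℂ → ℂ, DifferentiableOn ℂ g (ball 0 1) ∧ (∀ x ∈ ball (0 : ℂ) 1, ‖g x‖ ≤ ρ) ∧
        ∀ j, g (lam j) = (2 * υ (lam j) * p j - s j) / (2 - υ (lam j) * s j) := by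
  obtain ⟨ρ, ρ0, ρ1, hb⟩ := base n hτ hτ1 hR0 hR
  obtain ⟨K, hK⟩ : ∃ K : ℝ, K = n * (1 / τ) ^ n + 1 := ⟨_, rfl⟩
  have K0 : 1 ≤ K := by
    rw [hK]
    have : 0 ≤ (n : ℝ) * (1 / τ) ^ n := by positivity
    linarith
  obtain ⟨η, hη⟩ : ∃ η : ℝ, η = (1 - ρ) / (64 * K) := ⟨_, rfl⟩
  have η0 : 0 < η := by
    rw [hη]
    have : 0 < 1 - ρ := by linarith
    positivity
  have η1 : η * (64 * K) = 1 - ρ := by rw [hη]; field_simp
  have η2 : η ≤ 1 / 2 := by nlinarith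
  refine ⟨η, η0, (1 + ρ) / 2, by linarith, fun lam s p hl hsep hs hp υ dυ hυ => ?_⟩
  have hl1 : ∀ j, lam j ∈ ball (0 : ℂ) 1 := fun j => by
    rw [mem_ball_zero_iff]; exact (hl j).trans_lt hR
  obtain ⟨g, dg, ng, gl⟩ := hb lam hl hsep υ dυ hυ
  obtain ⟨h, dh, h1, h2⟩ := Pool.Agent.Y958.GI.correct lam
    (fun j => (2 * υ (lam j) * p j - s j) / (2 - υ (lam j) * s j) - g (lam j))
    (E := 16 * η) hτ hτ1 (fun j => (hl j).trans_lt hR) hsep fun j => by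
      have hυj := hυ _ (hl1 j)
      have n1 : ‖lam j‖ ≤ 1 := (hl j).trans hR.le
      have n2 : ‖s j‖ ≤ 3 / 2 := by
        have := norm_add_le (s j - lam j) (lam j)
        rw [sub_add_cancel] at this
        linarith [hs j]
      have a1 : 1 ≤ ‖2 - lam j * υ (lam j)‖ := by
        have := norm_sub_norm_le (2 : ℂ) (lam j * υ (lam j))
        rw [norm_mul, Complex.norm_two] at this
        nlinarith [norm_nonneg (lam j), norm_nonneg (υ (lam j))]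
      have a2 : 1 / 2 ≤ ‖2 - υ (lam j) * s j‖ := by
        have := norm_sub_norm_le (2 : ℂ) (υ (lam j) * s j)
        rw [norm_mul, Complex.norm_two] at this
        nlinarith [norm_nonneg (s j), norm_nonneg (υ (lam j))]
      have b1 : 2 - lam j * υ (lam j) ≠ 0 := fun e => by rw [e, norm_zero] at a1; linarith
      have b2 : 2 - υ (lam j) * s j ≠ 0 := fun e => by rw [e, norm_zero] at a2; linarith
      have e : (2 * υ (lam j) * p j - s j) / (2 - υ (lam j) * s j) - g (lam j) =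
          (4 * υ (lam j) * p j - 2 * υ (lam j) * υ (lam j) * p j * lam j - 2 * (s j - lam j)) /
          ((2 - υ (lam j) * s j) * (2 - lam j * υ (lam j))) := by
        rw [gl, div_sub_div _ _ b2 b1]
        congr 1
        ring
      rw [e, norm_div, div_le_iff₀ (by rw [norm_mul]; positivity), norm_mul]
      have c1 : ‖4 * υ (lam j) * p j - 2 * υ (lam j) * υ (lam j) * p j * lam j -
          2 * (s j - lam j)‖ ≤ 8 * η := by
        refine (norm_sub_le _ _).trans ?_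
        refine (add_le_add (norm_sub_le _ _) le_rfl).trans ?_
        simp only [norm_mul, Complex.norm_ofNat]
        have d1 : ‖υ (lam j)‖ * ‖p j‖ ≤ 1 * η := mul_le_mul hυj (hp j) (norm_nonneg _) zero_le_one
        have d2 : ‖υ (lam j)‖ * ‖lam j‖ ≤ 1 * 1 := mul_le_mul hυj n1 (norm_nonneg _) zero_le_one
        have d3 : ‖υ (lam j)‖ * ‖υ (lam j)‖ * ‖p j‖ * ‖lam j‖ ≤ η := by
          calc _ = (‖υ (lam j)‖ * ‖p j‖) * (‖υ (lam j)‖ * ‖lam j‖) := by ring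
            _ ≤ (1 * η) * (1 * 1) := mul_le_mul d1 d2 (by positivity) (by positivity)
            _ = η := by ring
        nlinarith [hs j]
      refine c1.trans ?_
      have c2 : 1 / 2 * 1 ≤ ‖2 - υ (lam j) * s j‖ * ‖2 - lam j * υ (lam j)‖ :=
        mul_le_mul a2 a1 zero_le_one (norm_nonneg _)
      nlinarith
  refine ⟨fun x => g x + h x, dg.add dh.differentiableOn, fun x hx => ?_, fun j => ?_⟩
  · refine (norm_add_le _ _).trans ?_
    have h3 := ng x hx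
    have h4 := h2 x hx
    have h5 : (n : ℝ) * (16 * η * (1 / τ) ^ n) ≤ 16 * η * K := by
      rw [hK]
      nlinarith
    nlinarith
  · simp only [h1]
    ring

lemma roots (s p : ℂ) : ∃ a b : ℂ, s = a + b ∧ p = a * b := by
  obtain ⟨d, hd⟩ := IsAlgClosed.exists_pow_nat_eq (s ^ 2 - 4 * p) (n := 2) (by norm_num)
  exact ⟨(s + d) / 2, (s - d) / 2, by ring, by linear_combination (1 / 4) * hd⟩

/-- stability of the obstruction -/
theorem unsolv {t : ℝ} (ht : 1 < t) : ∃ σ : ℝ, 0 < σ ∧ ∀ s p A B : ℂ → ℂ,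
    DifferentiableOn ℂ s (ball 0 1) → DifferentiableOn ℂ p (ball 0 1) →
    (∀ z ∈ ball (0 : ℂ) 1, ∃ a b : ℂ, ‖a‖ ≤ 1 ∧ ‖b‖ ≤ 1 ∧ s z = a + b ∧ p z = a * b) →
    DifferentiableOn ℂ A (ball 0 1) → DifferentiableOn ℂ B (ball 0 1) →
    (∀ z ∈ ball (0 : ℂ) 1, ‖A z‖ ≤ σ) → (∀ z ∈ ball (0 : ℂ) 1, ‖B z‖ ≤ σ) →
    ∀ u v w : ℂ, ‖u‖ < 1 → ‖v‖ < 1 → ‖w‖ < 1 → u ≠ v → u ≠ w → v ≠ w →
    (∀ x, x = u ∨ x = v ∨ x = w → s x = t * x + A x ∧ p x = B x) → False := by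
  obtain ⟨c, hc⟩ : ∃ c : ℝ, c = √t - 1 := ⟨_, rfl⟩
  have hq : √t = 1 + c := by rw [hc]; ring
  have hq2 : √t * √t = t := Real.mul_self_sqrt (by linarith)
  have c0 : 0 < c := by
    rw [hc]
    have : √1 < √t := Real.sqrt_lt_sqrt zero_le_one ht
    rw [Real.sqrt_one] at this
    linarith
  refine ⟨c ^ 2 / (2 * (c + 2)), by positivity, fun s p A B hs hp hG hA hB nA nB u v w hu hv hw
    huv huw hvw hx => ?_⟩
  obtain ⟨σ, hσ⟩ : ∃ σ : ℝ, σ = c ^ 2 / (2 * (c + 2)) := ⟨_, rfl⟩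
  have σ0 : 0 < σ := by rw [hσ]; positivity
  have σ1 : σ * (2 * (c + 2)) = c ^ 2 := by rw [hσ]; field_simp
  rw [← hσ] at nA nB
  -- roots of the corrected polynomial
  have key : ∀ z ∈ ball (0 : ℂ) 1, ∀ x : ℂ, x ^ 2 - (s z - A z) * x + (p z - B z) = 0 →
      ‖x‖ ≤ √t := by
    intro z hz x hx0
    by_contra hcon
    rw [not_le] at hcon
    obtain ⟨a, b, ha, hb, hab, hab'⟩ := hG z hz
    have e : (x - a) * (x - b) = B z - A z * x := by
      rw [hab, hab'] at hx0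
      linear_combination hx0
    have e2 : ‖x - a‖ * ‖x - b‖ ≤ σ * (‖x‖ + 1) := by
      rw [← norm_mul, e]
      refine (norm_sub_le _ _).trans ?_
      rw [norm_mul]
      nlinarith [nA z hz, nB z hz, norm_nonneg x, norm_nonneg (A z)]
    have e3 : ‖x‖ - 1 ≤ ‖x - a‖ := by linarith [norm_sub_norm_le x a]
    have e4 : ‖x‖ - 1 ≤ ‖x - b‖ := by linarith [norm_sub_norm_le x b]
    obtain ⟨y, hy⟩ : ∃ y : ℝ, y = ‖x‖ - 1 := ⟨_, rfl⟩
    rw [← hy] at e3 e4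
    have y1 : c < y := by rw [hy]; linarith
    have e5 : y * y ≤ ‖x - a‖ * ‖x - b‖ := mul_le_mul e3 e4 (by linarith) (norm_nonneg _)
    have e6 : y * y ≤ σ * (y + 2) := by
      have : ‖x‖ + 1 = y + 2 := by rw [hy]; ring
      rw [this] at e2
      exact e5.trans e2
    -- `y² (c+2) ≥ c² (y+2)`
    have e7 : c ^ 2 * (y + 2) ≤ y ^ 2 * (c + 2) := by
      have k1 : 0 ≤ y - c := by linarith
      nlinarith [mul_nonneg k1 (mul_pos c0 (c0.trans y1)).le, mul_nonneg k1 (c0.trans y1).le,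
        mul_nonneg k1 c0.le]
    have e8 : σ * (y + 2) * (2 * (c + 2)) = c ^ 2 * (y + 2) := by
      rw [← σ1]; ring
    have e9 : 0 < y * y * (c + 2) := by
      have := c0.trans y1
      positivity
    nlinarith
  obtain ⟨r, hr⟩ : ∃ r : ℝ, r = 1 / √t := ⟨_, rfl⟩
  have st : 0 < √t := by rw [hq]; linarith
  have r0 : 0 < r := by rw [hr]; positivity
  have rt : r * √t = 1 := by rw [hr]; field_simp
  have hbig : 1 < √t := by rw [hq]; linarith
  -- choice of the radius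
  obtain ⟨R, hR1, hRt, hRu, hRv, hRw⟩ : ∃ R : ℝ, 1 < R ∧ R < √t ∧ R * ‖u‖ < 1 ∧ R * ‖v‖ < 1 ∧
      R * ‖w‖ < 1 := by
    have f : ∀ a : ℝ, a < 1 → ∀ᶠ R : ℝ in nhdsWithin 1 (Ioi 1), R * a < 1 := fun a ha => by
      have : Filter.Tendsto (fun R : ℝ => R * a) (nhds 1) (nhds (1 * a)) :=
        Filter.tendsto_id.mul_const a
      rw [one_mul] at this
      exact (this.eventually (gt_mem_nhds ha)).filter_mono nhdsWithin_le_nhds
    have g : ∀ᶠ R : ℝ in nhdsWithin 1 (Ioi 1), R < √t :=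
      (Filter.Eventually.filter_mono nhdsWithin_le_nhds (gt_mem_nhds hbig))
    obtain ⟨R, h1, h2, h3, h4, h5⟩ := ((eventually_mem_nhdsWithin (a := (1 : ℝ)) (s := Ioi 1)).and
      (g.and ((f _ hu).and ((f _ hv).and (f _ hw))))).exists
    exact ⟨R, h1, h2, h3, h4, h5⟩
  have R0 : 0 < R := by linarith
  have R0' : (R : ℂ) ≠ 0 := by exact_mod_cast R0.ne'
  have maps : MapsTo (fun z : ℂ => z / R) (ball 0 R) (ball 0 1) := fun z hz => by
    rw [mem_ball_zero_iff] at hz ⊢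
    simp only
    rw [norm_div, Complex.norm_real, Real.norm_of_nonneg R0.le, div_lt_one R0]
    exact hz
  have dl : DifferentiableOn ℂ (fun z : ℂ => z / R) (ball 0 R) :=
    (differentiable_id.div_const (R : ℂ)).differentiableOn
  have dcomp : ∀ f : ℂ → ℂ, DifferentiableOn ℂ f (ball 0 1) →
      DifferentiableOn ℂ (fun z : ℂ => f (z / R)) (ball 0 R) := fun f hf => hf.comp dl maps
  have tt : (1 : ℝ) < √t / R := by rw [lt_div_iff₀ R0]; linarith
  have rtc : (r : ℂ) * t = √t := by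
    rw [← ofReal_mul]
    congr 1
    calc r * t = r * √t * √t := by rw [mul_assoc, hq2]
      _ = √t := by rw [rt, one_mul]
  have node : ∀ x, x = u ∨ x = v ∨ x = w →
      (((√t / R : ℝ) : ℂ) * (R * x)) ^ 2 - (r * (s (R * x / R) - A (R * x / R))) *
        (((√t / R : ℝ) : ℂ) * (R * x)) + (r ^ 2 * (p (R * x / R) - B (R * x / R))) = 0 := by
    intro x hx'
    obtain ⟨h1, h2⟩ := hx x hx'
    have e0 : (R : ℂ) * x / R = x := by field_simp
    have e1 : (((√t / R : ℝ) : ℂ) * (R * x)) = √t * x := by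
      push_cast; field_simp
    rw [e0, e1, h1, h2, sub_self, mul_zero, add_zero, add_sub_cancel_right]
    linear_combination (-(√t : ℂ) * x ^ 2) * rtc
  refine core3 (t := √t / R) tt (s := fun z => r * (s (z / R) - A (z / R)))
    (p := fun z => r ^ 2 * (p (z / R) - B (z / R))) hR1
    (((dcomp s hs).sub (dcomp A hA)).const_mul _) (((dcomp p hp).sub (dcomp B hB)).const_mul _)
    (fun z hz => ?_) (u := R * u) (v := R * v) (w := R * w) ?_ ?_ ?_
    (fun h => huv (mul_left_cancel₀ R0' h)) (fun h => huw (mul_left_cancel₀ R0' h))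
    (fun h => hvw (mul_left_cancel₀ R0' h)) (node u (Or.inl rfl)) (node v (Or.inr (Or.inl rfl)))
    (node w (Or.inr (Or.inr rfl)))
  · obtain ⟨x, y, hxy, hxy'⟩ := roots (s (z / R) - A (z / R)) (p (z / R) - B (z / R))
    have k1 := key _ (maps hz) x (by rw [hxy, hxy']; ring)
    have k2 := key _ (maps hz) y (by rw [hxy, hxy']; ring)
    have k3 : ∀ x : ℂ, ‖x‖ ≤ √t → ‖(r : ℂ) * x‖ ≤ 1 := fun x hx => by
      rw [norm_mul, Complex.norm_real, Real.norm_of_nonneg r0.le, ← rt]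
      gcongr
    refine ⟨r * x, r * y, k3 x k1, k3 y k2, ?_, ?_⟩
    · simp only [hxy]; ring
    · simp only [hxy']; ring
  all_goals rw [norm_mul, Complex.norm_real, Real.norm_of_nonneg R0.le]; assumption

end Pool.Agent.KS6_90.GI
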